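import Mathlib

/-!
# No lonely colour graphs of arbitrarily large chromatic number

Let `K` be given. On the vertex set `[K+1]^r` choose, for every line parallel to a coordinate axis,
one pair of distinct points of that line, and join them by an edge, coloured by the direction of
the line. Every vertex meets at most one edge of each colour, and every circuit which uses the
colour `j` changes the coordinate `j`, hence has to use the colour `j` a second time. So the graph
is a no lonely colour graph, and in particular a no pied circuit graph.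

Every map from a line to `K` colours takes some value twice. So the pair on a given line can be
chosen in such a way that a proportion of at least `1/(K(K+1))` of any given set of maps
`[K+1]^r → [K]` is constant on the pair. Choosing the pairs line by line, no map remains at the end
when `r` is large, so the graph is not `K`-colourable.
-/

open Finset

namespace Pool.Agent.Results.MP_2f2576_co.UnboundedChromatic

/-- Condition (i): every vertex meets at most two edges of each colour. The edge colouring is given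
by its values on all unordered pairs; only the values on edges of `G` matter. -/
def AtMostTwoOfEachColour {V ι : Type} (G : SimpleGraph V) (c : Sym2 V → ι) : Prop :=
  ∀ (v : V) (k : ι), {e : Sym2 V | e ∈ G.incidenceSet v ∧ c e = k}.encard ≤ 2

/-- Condition (ii): in every circuit, at least two edges have the same colour. -/
def NoPiedCircuit {V ι : Type} (G : SimpleGraph V) (c : Sym2 V → ι) : Prop :=
  ∀ (v : V) (p : G.Walk v v), p.IsCycle →
    ∃ e ∈ p.edges, ∃ e' ∈ p.edges, e' ≠ e ∧ c e' = c e

/-- Condition (iii): in every circuit, each edge has the same colour as some other edge of that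
circuit. -/
def NoLonelyColour {V ι : Type} (G : SimpleGraph V) (c : Sym2 V → ι) : Prop :=
  ∀ (v : V) (p : G.Walk v v), p.IsCycle →
    ∀ e ∈ p.edges, ∃ e' ∈ p.edges, e' ≠ e ∧ c e' = c e

/-- `G` is a no pied circuit graph: some edge colouring satisfies (i) and (ii). -/
def IsNoPiedCircuitGraph {V : Type} (G : SimpleGraph V) : Prop :=
  ∃ (ι : Type) (c : Sym2 V → ι), AtMostTwoOfEachColour G c ∧ NoPiedCircuit G c

/-- `G` is a no lonely colour graph: some edge colouring satisfies (i) and (iii). -/
def IsNoLonelyColourGraph {V : Type} (G : SimpleGraph V) : Prop :=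
  ∃ (ι : Type) (c : Sym2 V → ι), AtMostTwoOfEachColour G c ∧ NoLonelyColour G c

/-- A no lonely colour graph is a no pied circuit graph. -/
theorem IsNoLonelyColourGraph.isNoPiedCircuitGraph {V : Type} {G : SimpleGraph V}
    (h : IsNoLonelyColourGraph G) : IsNoPiedCircuitGraph G := by
  obtain ⟨ι, c, h1, h3⟩ := h
  refine ⟨ι, c, h1, fun v p hp => ?_⟩
  have hne : p.edges ≠ [] := by
    intro h0
    have := hp.not_nil
    apply this
    rw [← SimpleGraph.Walk.edges_eq_nil]
    exact h0
  obtain ⟨e, he⟩ := List.exists_mem_of_ne_nil _ hne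
  exact ⟨e, he, h3 v p hp e he⟩

section construction

variable (r n : ℕ) [NeZero n]

/-- The lines of `[n]^r`: a direction together with the point of the line at height `0`. -/
abbrev Line := {q : Fin r × (Fin r → Fin n) // q.2 q.1 = 0}

/-- Ordered pairs of distinct positions. -/
abbrev Pairs := {p : Fin n × Fin n // p.1 ≠ p.2}

variable {r n}

/-- The point at height `a` of a line. -/
def pt (l : Line r n) (a : Fin n) : Fin r → Fin n := Function.update l.1.2 l.1.1 a

theorem pt_dir (l : Line r n) (a : Fin n) : pt l a l.1.1 = a := by simp [pt]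

theorem pt_ne (l : Line r n) (a b : Fin n) {j : Fin r} (hj : j ≠ l.1.1) : pt l a j = pt l b j := by
  simp [pt, hj]

/-- The line through `x` in direction `j`. -/
def lineOf (x : Fin r → Fin n) (j : Fin r) : Line r n := ⟨(j, Function.update x j 0), by simp⟩

theorem lineOf_pt (l : Line r n) (a : Fin n) : lineOf (pt l a) l.1.1 = l := by
  obtain ⟨⟨j, z⟩, hz⟩ := l
  simp only at hz
  apply Subtype.ext
  simp only [lineOf, pt, Function.update_idem]
  rw [← hz]
  simp

theorem pt_lineOf (x : Fin r → Fin n) (j : Fin r) : pt (lineOf x j) (x j) = x := by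
  simp [pt, lineOf]

/-- The graph given by a choice of a pair on every line. -/
def theGraph (σ : Line r n → Pairs n) : SimpleGraph (Fin r → Fin n) where
  Adj x y := ∃ l : Line r n, (x = pt l (σ l).1.1 ∧ y = pt l (σ l).1.2) ∨
    (x = pt l (σ l).1.2 ∧ y = pt l (σ l).1.1)
  symm := ⟨by
    rintro x y ⟨l, h | h⟩
    · exact ⟨l, Or.inr ⟨h.2, h.1⟩⟩
    · exact ⟨l, Or.inl ⟨h.2, h.1⟩⟩⟩
  loopless := ⟨by
    rintro x ⟨l, h | h⟩
    · have h1 := congrFun (h.1.symm.trans h.2) l.1.1
      rw [pt_dir, pt_dir] at h1
      exact (σ l).2 h1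
    · have h1 := congrFun (h.1.symm.trans h.2) l.1.1
      rw [pt_dir, pt_dir] at h1
      exact (σ l).2 h1.symm⟩

theorem adj_theGraph (σ : Line r n → Pairs n) (l : Line r n) :
    (theGraph σ).Adj (pt l (σ l).1.1) (pt l (σ l).1.2) := ⟨l, Or.inl ⟨rfl, rfl⟩⟩

/-- The colour of a pair of points: the set of coordinates in which they differ. -/
def dirs (e : Sym2 (Fin r → Fin n)) : Set (Fin r) :=
  {j | ∃ x y : Fin r → Fin n, e = s(x, y) ∧ x j ≠ y j}

omit [NeZero n] in
theorem mem_dirs (x y : Fin r → Fin n) (j : Fin r) : j ∈ dirs s(x, y) ↔ x j ≠ y j := by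
  constructor
  · rintro ⟨x', y', h, hj⟩
    rw [Sym2.eq_iff] at h
    rcases h with ⟨rfl, rfl⟩ | ⟨rfl, rfl⟩
    · exact hj
    · exact hj.symm
  · intro h
    exact ⟨x, y, rfl, h⟩

theorem dirs_pt (l : Line r n) {a b : Fin n} (hab : a ≠ b) :
    dirs s(pt l a, pt l b) = {l.1.1} := by
  ext j
  rw [mem_dirs, Set.mem_singleton_iff]
  constructor
  · intro h
    by_contra hj
    exact h (pt_ne l a b hj)
  · rintro rfl
    rw [pt_dir, pt_dir]
    exact hab

theorem edge_form (σ : Line r n → Pairs n) {e : Sym2 (Fin r → Fin n)}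
    (he : e ∈ (theGraph σ).edgeSet) :
    ∃ l : Line r n, e = s(pt l (σ l).1.1, pt l (σ l).1.2) := by
  induction e using Sym2.ind with
  | _ x y =>
    rw [SimpleGraph.mem_edgeSet] at he
    obtain ⟨l, h | h⟩ := he
    · exact ⟨l, by rw [h.1, h.2]⟩
    · exact ⟨l, by rw [h.1, h.2, Sym2.eq_swap]⟩

theorem atMostTwo (σ : Line r n → Pairs n) :
    AtMostTwoOfEachColour (theGraph σ) (dirs (r := r) (n := n)) := by
  intro v k
  have h1 : {e | e ∈ (theGraph σ).incidenceSet v ∧ dirs e = k}.encard ≤ 1 := by
    rw [Set.encard_le_one_iff]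
    have key : ∀ e, e ∈ {e | e ∈ (theGraph σ).incidenceSet v ∧ dirs e = k} →
        ∃ l : Line r n, e = s(pt l (σ l).1.1, pt l (σ l).1.2) ∧ k = {l.1.1} ∧
          l = lineOf v l.1.1 := by
      rintro e ⟨⟨he, hv⟩, hk⟩
      obtain ⟨l, rfl⟩ := edge_form σ he
      refine ⟨l, rfl, ?_, ?_⟩
      · rw [← hk, dirs_pt l (σ l).2]
      · rw [Sym2.mem_iff] at hv
        rcases hv with rfl | rfl <;> rw [lineOf_pt]
    intro e e' he he'
    obtain ⟨l, h1, h2, h3⟩ := key e he
    obtain ⟨l', h1', h2', h3'⟩ := key e' he'
    have h4 : l.1.1 = l'.1.1 := Set.singleton_injective (h2.symm.trans h2')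
    have h5 : l = l' := by rw [h3, h3', h4]
    rw [h1, h1', h5]
  exact h1.trans (by norm_num)

/-- A walk without repeated edges which uses exactly one edge of direction `j` changes the
coordinate `j`; a walk without such edges does not. -/
theorem walk_const (σ : Line r n → Pairs n) {u v : Fin r → Fin n} (p : (theGraph σ).Walk u v)
    (j : Fin r) (h : ∀ e ∈ p.edges, dirs e ≠ {j}) : u j = v j := by
  induction p with
  | nil => rfl
  | @cons u w v hadj p ih =>
    have h1 : u j = w j := by
      by_contra hne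
      apply h s(u, w) (by simp)
      obtain ⟨l, hl⟩ := edge_form σ ((SimpleGraph.mem_edgeSet _).2 hadj)
      rw [hl, dirs_pt l (σ l).2]
      have : j ∈ dirs s(u, w) := (mem_dirs u w j).2 hne
      rw [hl, dirs_pt l (σ l).2] at this
      rw [Set.mem_singleton_iff.1 this]
    rw [h1]
    exact ih fun e he => h e (by simp [he])

theorem walk_change (σ : Line r n → Pairs n) {u v : Fin r → Fin n} (p : (theGraph σ).Walk u v)
    (hnd : p.edges.Nodup) (e : Sym2 (Fin r → Fin n)) (he : e ∈ p.edges) (j : Fin r)
    (hj : dirs e = {j}) (h : ∀ e' ∈ p.edges, e' ≠ e → dirs e' ≠ {j}) : u j ≠ v j := by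
  induction p with
  | nil => simp at he
  | @cons u w v hadj p ih =>
    rw [SimpleGraph.Walk.edges_cons] at hnd he h
    rw [List.nodup_cons] at hnd
    by_cases heq : e = s(u, w)
    · have h1 : w j = v j := by
        apply walk_const σ p j
        intro e' he'
        apply h e' (List.mem_cons_of_mem _ he')
        rintro rfl
        exact hnd.1 (heq ▸ he')
      have h2 : j ∈ dirs s(u, w) := by rw [← heq, hj]; rfl
      rw [← h1]
      exact (mem_dirs u w j).1 h2
    · have he2 : e ∈ p.edges := by
        rcases List.mem_cons.1 he with h3 | h3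
        · exact absurd h3 heq
        · exact h3
      have h1 : u j = w j := by
        by_contra hne
        apply h s(u, w) (by simp) (fun h4 => heq h4.symm)
        obtain ⟨l, hl⟩ := edge_form σ ((SimpleGraph.mem_edgeSet _).2 hadj)
        have : j ∈ dirs s(u, w) := (mem_dirs u w j).2 hne
        rw [hl, dirs_pt l (σ l).2] at this ⊢
        rw [Set.mem_singleton_iff.1 this]
      rw [h1]
      exact ih hnd.2 he2 (fun e' he' => h e' (List.mem_cons_of_mem _ he'))

theorem noLonely (σ : Line r n → Pairs n) :
    NoLonelyColour (theGraph σ) (dirs (r := r) (n := n)) := by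
  intro v p hp e he
  by_contra hcon
  push Not at hcon
  obtain ⟨l, hl⟩ := edge_form σ (p.edges_subset_edgeSet he)
  have hj : dirs e = {l.1.1} := by rw [hl, dirs_pt l (σ l).2]
  refine walk_change σ p hp.isTrail.edges_nodup e he l.1.1 hj ?_ rfl
  intro e' he' hne h
  exact hcon e' he' hne (h.trans hj.symm)

theorem card_line : Fintype.card (Line r n) * n = r * n ^ r := by
  have e : Line r n × Fin n ≃ Fin r × (Fin r → Fin n) :=
    { toFun := fun q => (q.1.1.1, pt q.1 q.2)
      invFun := fun q => (lineOf q.2 q.1, q.2 q.1)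
      left_inv := by
        rintro ⟨l, a⟩
        simp only [Prod.mk.injEq]
        exact ⟨lineOf_pt l a, pt_dir l a⟩
      right_inv := by
        rintro ⟨j, x⟩
        simp only [Prod.mk.injEq]
        exact ⟨rfl, pt_lineOf x j⟩ }
  have := Fintype.card_congr e
  simpa using this

open Classical in
/-- The maps to `K` colours which are not constant on the chosen pairs of the lines in `T`. -/
noncomputable def survivors (K : ℕ) (σ : Line r n → Pairs n) (T : Finset (Line r n)) :
    Finset ((Fin r → Fin n) → Fin K) :=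
  univ.filter fun φ => ∀ l ∈ T, φ (pt l (σ l).1.1) ≠ φ (pt l (σ l).1.2)

theorem greedy (K : ℕ) (hK : 0 < K) (hn : K < n) (T : Finset (Line r n)) :
    ∃ σ : Line r n → Pairs n,
      Fintype.card (Pairs n) ^ T.card * (survivors K σ T).card
        ≤ (Fintype.card (Pairs n) - 1) ^ T.card * K ^ (n ^ r) := by
  classical
  have hP : Nonempty (Pairs n) := ⟨⟨(⟨0, by omega⟩, ⟨1, by omega⟩), by simp⟩⟩
  induction T using Finset.induction_on with
  | empty =>
    obtain ⟨p⟩ := hP
    refine ⟨fun _ => p, ?_⟩
    simp [survivors]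
  | insert l T hl ih =>
    obtain ⟨σ₀, h₀⟩ := ih
    set S₀ := survivors K σ₀ T with hS₀
    set N := Fintype.card (Pairs n) with hN
    have hN1 : 0 < N := Fintype.card_pos
    -- every map takes some value twice on the line `l`
    have hpig : ∀ φ : (Fin r → Fin n) → Fin K, ∃ p : Pairs n, φ (pt l p.1.1) = φ (pt l p.1.2) := by
      intro φ
      obtain ⟨a, b, hab, h⟩ := Fintype.exists_ne_map_eq_of_card_lt (fun a : Fin n => φ (pt l a))
        (by simpa using hn)
      exact ⟨⟨(a, b), hab⟩, h⟩
    choose g hg using hpig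
    obtain ⟨p, hp⟩ : ∃ p : Pairs n, S₀.card ≤ N * (S₀.filter fun φ => g φ = p).card := by
      by_contra hcon
      push Not at hcon
      have h1 : ∑ p : Pairs n, (S₀.filter fun φ => g φ = p).card = S₀.card :=
        (Finset.card_eq_sum_card_fiberwise (fun φ _ => Finset.mem_coe.2 (Finset.mem_univ (g φ)))).symm
      have h2 : ∑ p : Pairs n, N * (S₀.filter fun φ => g φ = p).card < ∑ _p : Pairs n, S₀.card :=
        Finset.sum_lt_sum_of_nonempty Finset.univ_nonempty (fun p _ => hcon p)
      rw [← Finset.mul_sum, h1, Finset.sum_const, Finset.card_univ, smul_eq_mul] at h2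
      exact lt_irrefl _ h2
    refine ⟨Function.update σ₀ l p, ?_⟩
    have hsub : survivors K (Function.update σ₀ l p) (insert l T)
        ⊆ S₀ \ S₀.filter (fun φ => g φ = p) := by
      intro φ hφ
      simp only [survivors, mem_filter, mem_univ, true_and] at hφ
      rw [mem_sdiff, mem_filter]
      have h1 : φ ∈ S₀ := by
        simp only [hS₀, survivors, mem_filter, mem_univ, true_and]
        intro l' hl'
        have hne : l' ≠ l := fun h => hl (h ▸ hl')
        have := hφ l' (mem_insert_of_mem hl')
        rwa [Function.update_of_ne hne] at this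
      refine ⟨h1, fun h2 => ?_⟩
      have h3 := hφ l (mem_insert_self l T)
      rw [Function.update_self] at h3
      apply h3
      rw [← h2.2]
      exact hg φ
    have hcard : (survivors K (Function.update σ₀ l p) (insert l T)).card
        + (S₀.filter fun φ => g φ = p).card ≤ S₀.card := by
      have h1 := Finset.card_le_card hsub
      rw [Finset.card_sdiff_of_subset (Finset.filter_subset _ _)] at h1
      have h2 := Finset.card_le_card (Finset.filter_subset (fun φ => g φ = p) S₀)
      omega
    have hstep : N * (survivors K (Function.update σ₀ l p) (insert l T)).card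
        ≤ (N - 1) * S₀.card := by
      obtain ⟨N', hN'⟩ : ∃ N', N = N' + 1 := ⟨N - 1, by omega⟩
      rw [hN'] at hp ⊢
      simp only [Nat.add_sub_cancel]
      nlinarith
    rw [Finset.card_insert_of_notMem hl, pow_succ, pow_succ]
    calc N ^ T.card * N * (survivors K (Function.update σ₀ l p) (insert l T)).card
        = N ^ T.card * (N * (survivors K (Function.update σ₀ l p) (insert l T)).card) := by ring
      _ ≤ N ^ T.card * ((N - 1) * S₀.card) := Nat.mul_le_mul_left _ hstep
      _ = (N - 1) * (N ^ T.card * S₀.card) := by ring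
      _ ≤ (N - 1) * ((N - 1) ^ T.card * K ^ (n ^ r)) := Nat.mul_le_mul_left _ h₀
      _ = (N - 1) ^ T.card * (N - 1) * K ^ (n ^ r) := by ring

end construction

/-- The number of colours which is needed. -/
theorem exists_not_colorable (K : ℕ) (hK : 0 < K) :
    ∃ (r : ℕ) (σ : Line r (K + 1) → Pairs (K + 1)), ¬ (theGraph σ).Colorable K := by
  classical
  set N := Fintype.card (Pairs (K + 1)) with hN
  have hN1 : 1 < N := by
    rw [hN, Fintype.one_lt_card_iff]
    refine ⟨⟨(⟨0, by omega⟩, ⟨1, by omega⟩), by simp⟩, ⟨(⟨1, by omega⟩, ⟨0, by omega⟩), by simp⟩, ?_⟩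
    simp
  -- choose `r`
  obtain ⟨r, hr⟩ : ∃ r : ℕ, (N - 1) ^ r * K ^ (K + 1) < N ^ r := by
    have h1 : (0 : ℝ) < 1 / (K : ℝ) ^ (K + 1) := by positivity
    have h2 : ((N - 1 : ℕ) : ℝ) / N < 1 := by
      rw [div_lt_one (by exact_mod_cast (by omega : 0 < N))]
      exact_mod_cast (by omega : N - 1 < N)
    obtain ⟨r, hr⟩ := exists_pow_lt_of_lt_one h1 h2
    refine ⟨r, ?_⟩
    have hNpos : (0 : ℝ) < (N : ℝ) ^ r := by
      have : (0 : ℝ) < N := by exact_mod_cast (by omega : 0 < N)
      positivity
    have hKpos : (0 : ℝ) < (K : ℝ) ^ (K + 1) := by positivity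
    rw [div_pow, div_lt_div_iff₀ hNpos hKpos, one_mul] at hr
    exact_mod_cast hr
  obtain ⟨σ, hσ⟩ := greedy (r := r) (n := K + 1) K hK (Nat.lt_succ_self K) Finset.univ
  refine ⟨r, σ, ?_⟩
  rintro ⟨C⟩
  have hmem : (fun x => C x) ∈ survivors K σ Finset.univ := by
    simp only [survivors, mem_filter, mem_univ, true_and, forall_true_left]
    intro l
    exact C.valid (adj_theGraph σ l)
  have hpos : 1 ≤ (survivors K σ Finset.univ).card := Finset.card_pos.2 ⟨_, hmem⟩
  set L := (Finset.univ : Finset (Line r (K + 1))).card with hL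
  have hLn : L * (K + 1) = r * (K + 1) ^ r := by
    rw [hL, Finset.card_univ]
    exact card_line
  have h1 : N ^ L ≤ (N - 1) ^ L * K ^ ((K + 1) ^ r) := by
    calc N ^ L = N ^ L * 1 := (mul_one _).symm
      _ ≤ N ^ L * (survivors K σ Finset.univ).card := Nat.mul_le_mul_left _ hpos
      _ ≤ _ := hσ
  have h2 : (N ^ L) ^ (K + 1) ≤ ((N - 1) ^ L * K ^ ((K + 1) ^ r)) ^ (K + 1) :=
    Nat.pow_le_pow_left h1 _
  have h3 : (N ^ L) ^ (K + 1) = (N ^ r) ^ ((K + 1) ^ r) := by
    rw [← pow_mul, hLn, pow_mul]
  have h4 : ((N - 1) ^ L * K ^ ((K + 1) ^ r)) ^ (K + 1)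
      = ((N - 1) ^ r * K ^ (K + 1)) ^ ((K + 1) ^ r) := by
    rw [mul_pow, mul_pow, ← pow_mul, hLn, ← pow_mul, ← pow_mul, ← pow_mul]
    congr 2
    ring
  rw [h3, h4] at h2
  have h5 : ((N - 1) ^ r * K ^ (K + 1)) ^ ((K + 1) ^ r) < (N ^ r) ^ ((K + 1) ^ r) :=
    Nat.pow_lt_pow_left hr (by positivity)
  exact absurd h2 (not_le.2 h5)

/-- For every `m` there is a finite graph of chromatic number greater than `m` which is a no lonely
colour graph and (with the same edge colouring) a no pied circuit graph. -/
theorem result : ∀ m : ℕ, ∃ (V : Type) (_ : Finite V) (G : SimpleGraph V),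
    IsNoLonelyColourGraph G ∧ IsNoPiedCircuitGraph G ∧ (m : ℕ∞) < G.chromaticNumber := by
  intro m
  obtain ⟨r, σ, hσ⟩ := exists_not_colorable (m + 1) (Nat.succ_pos m)
  have h1 : IsNoLonelyColourGraph (theGraph σ) := ⟨_, dirs, atMostTwo σ, noLonely σ⟩
  refine ⟨Fin r → Fin (m + 1 + 1), inferInstance, theGraph σ, h1, h1.isNoPiedCircuitGraph, ?_⟩
  rw [← not_le, SimpleGraph.chromaticNumber_le_iff_colorable]
  exact fun h => hσ (h.mono (Nat.le_succ m))

end Pool.Agent.Results.MP_2f2576_co.UnboundedChromatic
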